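import Pool.Agent.Lib.MP_6d445e_gt.V.Iface3
import Pool.Agent.Lib.MP_6b029b_lc.U.H15.Los

/-!
# VLOS: two-valued models

The notions of `V/Defs.lean` as formulas of the language of set theory; the quotient of `V^B` by an
ultrafilter.
-/

universe u v w

open scoped symmDiff

set_option linter.unusedSimpArgs false
set_option linter.unusedVariables false

namespace Pool.Agent.Lib.MP_6d445e_gt.H34

open Pool.Agent.Lib.MP_100a6c_lc Pool.Agent.Lib.MP_c5d73d_lc.F
open Pool.Agent.Lib.MP_c5d73d_lc.F.H80 Pool.Agent.Lib.MP_c5d73d_lc.F.H80.Fm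
open Pool.Agent.Lib.MP_6b029b_lc.U.H15 (two_valued_sentence)

/-! ## Formulas -/

section
variable {n : ℕ}

abbrev b5 : Fin (n + 6) := Fin.succ (Fin.succ (Fin.succ (Fin.succ (Fin.succ 0))))
abbrev b6 : Fin (n + 7) := Fin.succ (Fin.succ (Fin.succ (Fin.succ (Fin.succ (Fin.succ 0)))))
abbrev b7 : Fin (n + 8) :=
  Fin.succ (Fin.succ (Fin.succ (Fin.succ (Fin.succ (Fin.succ (Fin.succ 0))))))
abbrev b8 : Fin (n + 9) :=
  Fin.succ (Fin.succ (Fin.succ (Fin.succ (Fin.succ (Fin.succ (Fin.succ (Fin.succ 0)))))))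
abbrev s4 (i : Fin n) : Fin (n + 4) := i.succ.succ.succ.succ
abbrev s5 (i : Fin n) : Fin (n + 5) := i.succ.succ.succ.succ.succ
abbrev s6 (i : Fin n) : Fin (n + 6) := i.succ.succ.succ.succ.succ.succ
abbrev s7 (i : Fin n) : Fin (n + 7) := i.succ.succ.succ.succ.succ.succ.succ
abbrev s8 (i : Fin n) : Fin (n + 8) := i.succ.succ.succ.succ.succ.succ.succ.succ
abbrev s9 (i : Fin n) : Fin (n + 9) := i.succ.succ.succ.succ.succ.succ.succ.succ.succ

def opf (m x y z : Fin n) : Fml n :=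
  ex (an (pair b0 (s1 x) (s1 y)) (rel (s1 m) b0 (s1 z)))

def grpf (G m e : Fin n) : Fml n :=
  an (an (an (an (an (an (.all (.all (.all (.imp (opf (s3 m) b2 b1 b0) (an (an (.mem b2 (s3 G))
    (.mem b1 (s3 G))) (.mem b0 (s3 G))))))) (.all (.all (.imp (an (.mem b1 (s2 G)) (.mem b0 (s2
    G))) (ex (opf (s3 m) b2 b1 b0)))))) (.all (.all (.all (.all (.imp (an (opf (s4 m) b3 b2 b1)
    (opf (s4 m) b3 b2 b0)) (.eq b1 b0))))))) (.all (.all (.all (.all (.all (.all (.all (.imp (an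
    (an (an (opf (s7 m) b6 b5 b3) (opf (s7 m) b3 b4 b1)) (opf (s7 m) b5 b4 b2)) (opf (s7 m) b6 b2
    b0)) (.eq b1 b0)))))))))) (.mem e G)) (.all (.imp (.mem b0 (s1 G)) (an (opf (s1 m) (s1 e) b0
    b0) (opf (s1 m) b0 (s1 e) b0))))) (.all (.imp (.mem b0 (s1 G)) (ex (an (opf (s2 m) b1 b0 (s2
    e)) (opf (s2 m) b0 b1 (s2 e))))))

def topf (G t : Fin n) : Fml n :=
  an (an (an (.all (.imp (.mem b0 (s1 t)) (sub b0 (s1 G)))) (.mem G t)) (.all (.all (.all (.imp
    (an (an (.mem b2 (s3 t)) (.mem b1 (s3 t))) (inter b0 b2 b1)) (.mem b0 (s3 t))))))) (.all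
    (.all (.imp (an (sub b1 (s2 t)) (.all (bi (.mem b0 b1) (ex (an (.mem b0 b3) (.mem b1 b0))))))
    (.mem b0 (s2 t)))))

def hausf (G t : Fin n) : Fml n :=
  .all (.all (.imp (an (an (.mem b1 (s2 G)) (.mem b0 (s2 G))) (neg (.eq b1 b0))) (ex (ex (an (an
    (an (an (.mem b1 (s4 t)) (.mem b0 (s4 t))) (.mem b3 b1)) (.mem b2 b0)) (.all (neg (an (.mem
    b0 b2) (.mem b0 b1)))))))))

def scf (w t : Fin n) : Fml n :=
  ex (an (an (sub b0 (s1 t)) (le b0 (s1 w))) (.all (.all (.imp (an (.mem b1 (s3 t)) (.mem b0 b1))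
    (ex (an (an (.mem b0 b3) (.mem b1 b0)) (sub b0 b2)))))))

def cmulf (m t : Fin n) : Fml n :=
  .all (.all (.all (.all (.imp (an (an (opf (s4 m) b3 b2 b1) (.mem b0 (s4 t))) (.mem b1 b0)) (ex
    (ex (an (an (an (an (.mem b1 (s6 t)) (.mem b0 (s6 t))) (.mem b5 b1)) (.mem b4 b0)) (.all
    (.all (.all (.imp (an (an (.mem b2 b4) (.mem b1 b3)) (opf (s9 m) b2 b1 b0)) (.mem b0
    b5))))))))))))

def cinvf (m e t : Fin n) : Fml n :=
  .all (.all (.all (.imp (an (an (opf (s3 m) b2 b1 (s3 e)) (.mem b0 (s3 t))) (.mem b1 b0)) (ex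
    (an (an (.mem b0 (s4 t)) (.mem b3 b0)) (.all (.all (.imp (an (.mem b1 b2) (opf (s6 m) b1 b0
    (s6 e))) (.mem b0 b3)))))))))

def tgf (w G m e t : Fin n) : Fml n :=
  an (an (an (an (an (grpf G m e) (topf G t)) (cmulf m t)) (cinvf m e t)) (hausf G t)) (scf w t)

def finf (w F : Fin n) : Fml n :=
  ex (an (.mem b0 (s1 w)) (le (s1 F) b0))

def fsubf (w F G : Fin n) : Fml n :=
  an (sub F G) (finf w F)

def trf (m F A x : Fin n) : Fml n :=
  ex (ex (an (an (.mem b1 (s2 F)) (.mem b0 (s2 A))) (opf (s2 m) b1 b0 (s2 x))))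

def nbf (t e A : Fin n) : Fml n :=
  an (.mem A t) (.mem e A)

def seqf (w f : Fin n) : Fml n :=
  an (.all (.imp (.mem b0 (s1 w)) (ex (rel (s2 f) b1 b0)))) (.all (.all (.all (.imp (an (rel (s3
    f) b2 b1) (rel (s3 f) b2 b0)) (.eq b1 b0)))))

def fseqf (w G g : Fin n) : Fml n :=
  an (seqf w g) (.all (.all (.imp (an (.mem b1 (s2 w)) (rel (s2 g) b1 b0)) (fsubf (s2 w) b0 (s2
    G)))))

def mbf (w G m e t : Fin n) : Fml n :=
  .all (.imp (an (seqf (s1 w) b0) (.all (.all (.imp (an (.mem b1 (s3 w)) (rel b2 b1 b0)) (an (nbf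
    (s3 t) (s3 e) b0) (neg (.eq b0 (s3 G)))))))) (ex (an (fseqf (s2 w) (s2 G) b0) (.all (.imp
    (.mem b0 (s3 G)) (ex (ex (ex (an (an (an (.mem b2 (s6 w)) (rel b5 b2 b1)) (rel b4 b2 b0))
    (trf (s6 m) b0 b1 b3))))))))))

def sbf (w G m e t : Fin n) : Fml n :=
  .all (.imp (an (seqf (s1 w) b0) (.all (.all (.imp (an (.mem b1 (s3 w)) (rel b2 b1 b0)) (an (nbf
    (s3 t) (s3 e) b0) (.all (.imp (fsubf (s4 w) b0 (s4 G)) (ex (an (.mem b0 (s5 G)) (neg (trf (s5
    m) b1 b2 b0))))))))))) (ex (an (fseqf (s2 w) (s2 G) b0) (.all (.imp (fsubf (s3 w) b0 (s3 G))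
    (ex (ex (ex (an (an (an (.mem b2 (s6 w)) (rel b5 b2 b1)) (rel b4 b2 b0)) (.all (.imp (.mem b0
    b4) (trf (s7 m) b1 b2 b0))))))))))))

def mbsbf : Fml 0 :=
  .all (.all (.all (.all (.all (.imp (an (an (om b4) (tgf b4 b3 b2 b1 b0)) (mbf b4 b3 b2 b1 b0))
    (sbf b4 b3 b2 b1 b0))))))

variable {B : Type v} {U : Type w} [CompleteBooleanAlgebra B] (S : Str B U) (v : Fin n → U)

theorem val_opf (m x y z : Fin n) : val S (opf m x y z) v = op S (v m) (v x) (v y) (v z) := by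
  simp only [opf, op, val_pair, val_rel, val_mem, val_eq, val_imp, val_all, val_neg, val_an,
    val_bi, val_ex, b0, b1, b2, b3, b4, b5, b6, b7, b8, s1, s2, s3, s4, s5, s6, s7, s8, s9,
    Fin.cons_zero, Fin.cons_succ]

theorem val_grpf (G m e : Fin n) : val S (grpf G m e) v = isGrp S (v G) (v m) (v e) := by
  simp only [grpf, isGrp, val_opf, val_mem, val_eq, val_imp, val_all, val_neg, val_an, val_bi,
    val_ex, b0, b1, b2, b3, b4, b5, b6, b7, b8, s1, s2, s3, s4, s5, s6, s7, s8, s9,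
    Fin.cons_zero, Fin.cons_succ]

theorem val_topf (G t : Fin n) : val S (topf G t) v = isTopo S (v G) (v t) := by
  simp only [topf, isTopo, val_inter, val_sub, val_mem, val_eq, val_imp, val_all, val_neg,
    val_an, val_bi, val_ex, b0, b1, b2, b3, b4, b5, b6, b7, b8, s1, s2, s3, s4, s5, s6, s7, s8,
    s9, Fin.cons_zero, Fin.cons_succ]

theorem val_hausf (G t : Fin n) : val S (hausf G t) v = isHaus S (v G) (v t) := by
  simp only [hausf, isHaus, val_mem, val_eq, val_imp, val_all, val_neg, val_an, val_bi, val_ex,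
    b0, b1, b2, b3, b4, b5, b6, b7, b8, s1, s2, s3, s4, s5, s6, s7, s8, s9, Fin.cons_zero,
    Fin.cons_succ]

theorem val_scf (w t : Fin n) : val S (scf w t) v = isSC S (v w) (v t) := by
  simp only [scf, isSC, val_le, val_sub, val_mem, val_eq, val_imp, val_all, val_neg, val_an,
    val_bi, val_ex, b0, b1, b2, b3, b4, b5, b6, b7, b8, s1, s2, s3, s4, s5, s6, s7, s8, s9,
    Fin.cons_zero, Fin.cons_succ]

theorem val_cmulf (m t : Fin n) : val S (cmulf m t) v = isCMul S (v m) (v t) := by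
  simp only [cmulf, isCMul, val_opf, val_mem, val_eq, val_imp, val_all, val_neg, val_an, val_bi,
    val_ex, b0, b1, b2, b3, b4, b5, b6, b7, b8, s1, s2, s3, s4, s5, s6, s7, s8, s9,
    Fin.cons_zero, Fin.cons_succ]

theorem val_cinvf (m e t : Fin n) : val S (cinvf m e t) v = isCInv S (v m) (v e) (v t) := by
  simp only [cinvf, isCInv, val_opf, val_mem, val_eq, val_imp, val_all, val_neg, val_an, val_bi,
    val_ex, b0, b1, b2, b3, b4, b5, b6, b7, b8, s1, s2, s3, s4, s5, s6, s7, s8, s9,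
    Fin.cons_zero, Fin.cons_succ]

theorem val_tgf (w G m e t : Fin n) : val S (tgf w G m e t) v = isTG S (v w) (v G) (v m) (v e) (v
    t) := by
  simp only [tgf, isTG, val_cinvf, val_cmulf, val_grpf, val_hausf, val_scf, val_topf, val_mem,
    val_eq, val_imp, val_all, val_neg, val_an, val_bi, val_ex, b0, b1, b2, b3, b4, b5, b6, b7,
    b8, s1, s2, s3, s4, s5, s6, s7, s8, s9, Fin.cons_zero, Fin.cons_succ]

theorem val_finf (w F : Fin n) : val S (finf w F) v = isFin S (v w) (v F) := by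
  simp only [finf, isFin, val_le, val_mem, val_eq, val_imp, val_all, val_neg, val_an, val_bi,
    val_ex, b0, b1, b2, b3, b4, b5, b6, b7, b8, s1, s2, s3, s4, s5, s6, s7, s8, s9,
    Fin.cons_zero, Fin.cons_succ]

theorem val_fsubf (w F G : Fin n) : val S (fsubf w F G) v = fsub S (v w) (v F) (v G) := by
  simp only [fsubf, fsub, val_finf, val_sub, val_mem, val_eq, val_imp, val_all, val_neg, val_an,
    val_bi, val_ex, b0, b1, b2, b3, b4, b5, b6, b7, b8, s1, s2, s3, s4, s5, s6, s7, s8, s9,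
    Fin.cons_zero, Fin.cons_succ]

theorem val_trf (m F A x : Fin n) : val S (trf m F A x) v = tr S (v m) (v F) (v A) (v x) := by
  simp only [trf, tr, val_opf, val_mem, val_eq, val_imp, val_all, val_neg, val_an, val_bi,
    val_ex, b0, b1, b2, b3, b4, b5, b6, b7, b8, s1, s2, s3, s4, s5, s6, s7, s8, s9,
    Fin.cons_zero, Fin.cons_succ]

theorem val_nbf (t e A : Fin n) : val S (nbf t e A) v = isNb S (v t) (v e) (v A) := by
  simp only [nbf, isNb, val_mem, val_eq, val_imp, val_all, val_neg, val_an, val_bi, val_ex, b0,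
    b1, b2, b3, b4, b5, b6, b7, b8, s1, s2, s3, s4, s5, s6, s7, s8, s9, Fin.cons_zero,
    Fin.cons_succ]

theorem val_seqf (w f : Fin n) : val S (seqf w f) v = isSeq S (v w) (v f) := by
  simp only [seqf, isSeq, val_rel, val_mem, val_eq, val_imp, val_all, val_neg, val_an, val_bi,
    val_ex, b0, b1, b2, b3, b4, b5, b6, b7, b8, s1, s2, s3, s4, s5, s6, s7, s8, s9,
    Fin.cons_zero, Fin.cons_succ]

theorem val_fseqf (w G g : Fin n) : val S (fseqf w G g) v = isFSeq S (v w) (v G) (v g) := by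
  simp only [fseqf, isFSeq, val_fsubf, val_rel, val_seqf, val_mem, val_eq, val_imp, val_all,
    val_neg, val_an, val_bi, val_ex, b0, b1, b2, b3, b4, b5, b6, b7, b8, s1, s2, s3, s4, s5, s6,
    s7, s8, s9, Fin.cons_zero, Fin.cons_succ]

theorem val_mbf (w G m e t : Fin n) : val S (mbf w G m e t) v = MB S (v w) (v G) (v m) (v e) (v
    t) := by
  simp only [mbf, MB, val_fseqf, val_nbf, val_rel, val_seqf, val_trf, val_mem, val_eq, val_imp,
    val_all, val_neg, val_an, val_bi, val_ex, b0, b1, b2, b3, b4, b5, b6, b7, b8, s1, s2, s3, s4,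
    s5, s6, s7, s8, s9, Fin.cons_zero, Fin.cons_succ]

theorem val_sbf (w G m e t : Fin n) : val S (sbf w G m e t) v = SB S (v w) (v G) (v m) (v e) (v
    t) := by
  simp only [sbf, SB, val_fseqf, val_fsubf, val_nbf, val_rel, val_seqf, val_trf, val_mem, val_eq,
    val_imp, val_all, val_neg, val_an, val_bi, val_ex, b0, b1, b2, b3, b4, b5, b6, b7, b8, s1,
    s2, s3, s4, s5, s6, s7, s8, s9, Fin.cons_zero, Fin.cons_succ]

theorem val_mbsbf (v : Fin 0 → U) : val S mbsbf v = MBSB S := by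
  simp only [mbsbf, MBSB, val_mbf, val_om, val_sbf, val_tgf, val_mem, val_eq, val_imp, val_all,
    val_neg, val_an, val_bi, val_ex, b0, b1, b2, b3, b4, b5, b6, b7, b8, s1, s2, s3, s4, s5, s6,
    s7, s8, s9, Fin.cons_zero, Fin.cons_succ]

end

/-! ## VLOS -/

/-- VLOS -/
theorem vlos : VlosStatement.{u} := by
  intro B _ h0 hZ hM
  obtain ⟨M, E, h1, h2⟩ := two_valued_sentence B h0 hZ
  refine ⟨M, E, h1, ?_⟩
  have := h2 mbsbf (by rw [val_mbsbf, hM])
  rwa [val_mbsbf] at this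

end Pool.Agent.Lib.MP_6d445e_gt.H34
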